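import Mathlib
import Pool.Agent.V1129.LocMin

set_option autoImplicit false

/-!
A compact group `G = 𝕋 × (ℤ_p ⋊ {±1})`, not totally disconnected, all of whose dense subgroups
are locally minimal, and which contains a closed copy of `ℤ_p`.
-/

open Topology Filter

namespace Pool.Agent.Results.MP_6af4f0_al.NotLie

open Pool.Agent.V1129

noncomputable section

/-- the (infinite) dihedral pro-`p` group `ℤ_p ⋊ {±1}` -/
@[ext] structure Dih (p : ℕ) [Fact p.Prime] where
  b : ℤ_[p]
  s : ℤˣ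

namespace Dih

variable {p : ℕ} [Fact p.Prime]

instance : Mul (Dih p) := ⟨fun x y => ⟨x.b + ((x.s : ℤ) : ℤ_[p]) * y.b, x.s * y.s⟩⟩
instance : One (Dih p) := ⟨⟨0, 1⟩⟩
instance : Inv (Dih p) := ⟨fun x => ⟨-(((x.s : ℤ) : ℤ_[p]) * x.b), x.s⟩⟩

@[simp] lemma mul_b (x y : Dih p) : (x * y).b = x.b + ((x.s : ℤ) : ℤ_[p]) * y.b := rfl
@[simp] lemma mul_s (x y : Dih p) : (x * y).s = x.s * y.s := rfl
@[simp] lemma one_b : (1 : Dih p).b = 0 := rfl
@[simp] lemma one_s : (1 : Dih p).s = 1 := rfl
@[simp] lemma inv_b (x : Dih p) : (x⁻¹).b = -(((x.s : ℤ) : ℤ_[p]) * x.b) := rfl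
@[simp] lemma inv_s (x : Dih p) : (x⁻¹).s = x.s := rfl

lemma sq (s : ℤˣ) : ((s : ℤ) : ℤ_[p]) * ((s : ℤ) : ℤ_[p]) = 1 := by
  rcases Int.units_eq_one_or s with h | h <;> simp [h]

instance : Group (Dih p) :=
  Group.ofLeftAxioms
    (by
      intro x y z
      ext
      · simp only [mul_b, mul_s, Units.val_mul, Int.cast_mul]; ring
      · simp only [mul_s, mul_assoc])
    (by intro x; ext <;> simp)
    (by
      intro x
      ext
      · simp
      · simp only [mul_s, inv_s, one_s, Int.units_mul_self])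

/-- underlying product -/
def toProd : Dih p ≃ ℤ_[p] × ℤˣ where
  toFun x := (x.b, x.s)
  invFun y := ⟨y.1, y.2⟩
  left_inv _ := rfl
  right_inv _ := rfl

instance : TopologicalSpace (Dih p) := TopologicalSpace.induced toProd inferInstance

/-- the homeomorphism with the product -/
def homeo : Dih p ≃ₜ ℤ_[p] × ℤˣ := toProd.toHomeomorphOfIsInducing ⟨rfl⟩

lemma continuous_b : Continuous (fun x : Dih p => x.b) := continuous_fst.comp homeo.continuous
lemma continuous_s : Continuous (fun x : Dih p => x.s) := continuous_snd.comp homeo.continuous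

lemma continuous_mk {X : Type*} [TopologicalSpace X] {f : X → ℤ_[p]} {g : X → ℤˣ}
    (hf : Continuous f) (hg : Continuous g) : Continuous (fun x => (⟨f x, g x⟩ : Dih p)) :=
  homeo.symm.continuous.comp (hf.prodMk hg)

lemma continuous_sc : Continuous (fun s : ℤˣ => ((s : ℤ) : ℤ_[p])) :=
  continuous_of_discreteTopology

instance : IsTopologicalGroup (Dih p) where
  continuous_mul := by
    have h1 : Continuous (fun q : Dih p × Dih p => q.1.b) := continuous_b.comp continuous_fst
    have h2 : Continuous (fun q : Dih p × Dih p => q.2.b) := continuous_b.comp continuous_snd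
    have h3 : Continuous (fun q : Dih p × Dih p => q.1.s) := continuous_s.comp continuous_fst
    have h4 : Continuous (fun q : Dih p × Dih p => q.2.s) := continuous_s.comp continuous_snd
    exact continuous_mk (h1.add ((continuous_sc.comp h3).mul h2)) (h3.mul h4)
  continuous_inv := by
    exact continuous_mk ((continuous_sc.comp continuous_s).mul continuous_b).neg continuous_s

instance : CompactSpace (Dih p) := homeo.symm.compactSpace
instance : T2Space (Dih p) := homeo.symm.t2Space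

end Dih

lemma circle_aux (z : Circle) (n : ℕ) (h : ∀ k : ℕ, 0 ≤ ((z ^ k : Circle) : ℂ).re) :
    2 ^ n * (1 - (z : ℂ).re) ≤ 1 - ((z ^ (2 ^ n) : Circle) : ℂ).re := by
  induction n with
  | zero => simp
  | succ n ih =>
    set w : Circle := z ^ (2 ^ n) with hw
    have h1 : z ^ (2 ^ (n + 1)) = w * w := by rw [hw, ← pow_add]; congr 1; ring
    rw [h1]
    have h2 : ((w * w : Circle) : ℂ).re = (w : ℂ).re * (w : ℂ).re - (w : ℂ).im * (w : ℂ).im := by
      rw [Circle.coe_mul, Complex.mul_re]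
    have h3 : (w : ℂ).re * (w : ℂ).re + (w : ℂ).im * (w : ℂ).im = 1 := by
      have := Circle.normSq_coe w
      rwa [Complex.normSq_apply] at this
    have h4 : 0 ≤ (w : ℂ).re := h _
    have h5 : (w : ℂ).re ≤ 1 := by nlinarith [mul_self_nonneg (w : ℂ).im]
    rw [h2]
    have h6 : (2 : ℝ) ^ (n + 1) * (1 - (z : ℂ).re) = 2 * (2 ^ n * (1 - (z : ℂ).re)) := by ring
    rw [h6]
    nlinarith

lemma circle_small (z : Circle) (h : ∀ k : ℕ, 0 ≤ ((z ^ k : Circle) : ℂ).re) : z = 1 := by
  have h3 : (z : ℂ).re * (z : ℂ).re + (z : ℂ).im * (z : ℂ).im = 1 := by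
    have := Circle.normSq_coe z
    rwa [Complex.normSq_apply] at this
  have h5 : (z : ℂ).re ≤ 1 := by nlinarith [mul_self_nonneg (z : ℂ).im]
  have h6 : (z : ℂ).re = 1 := by
    by_contra hne
    have hlt : 0 < 1 - (z : ℂ).re := by
      have := lt_of_le_of_ne h5 hne
      linarith
    obtain ⟨n, hn⟩ := pow_unbounded_of_one_lt (1 / (1 - (z : ℂ).re)) (one_lt_two)
    have h7 := circle_aux z n h
    have h8 := h (2 ^ n)
    have h9 : 1 < 2 ^ n * (1 - (z : ℂ).re) := by
      rwa [div_lt_iff₀ hlt] at hn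
    linarith
  have h7 : (z : ℂ).im = 0 := by
    rw [h6] at h3
    nlinarith
  apply Circle.ext
  apply Complex.ext
  · simpa using h6
  · simpa using h7

section

variable (p : ℕ) [Fact p.Prime]

/-- the compact group `𝕋 × (ℤ_p ⋊ {±1})` -/
abbrev Gp : Type := Circle × Dih p

/-- the closed neighbourhood of the identity -/
def V : Set (Gp p) := {x | 0 ≤ (x.1 : ℂ).re ∧ x.2.s = 1}

lemma V_closed : IsClosed (V p) := by
  have h1 : Continuous (fun x : Gp p => (x.1 : ℂ).re) :=
    Complex.continuous_re.comp (continuous_subtype_val.comp continuous_fst)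
  have h2 : Continuous (fun x : Gp p => x.2.s) := Dih.continuous_s.comp continuous_snd
  exact (isClosed_le continuous_const h1).inter (isClosed_eq h2 continuous_const)

lemma V_nhds : V p ∈ 𝓝 (1 : Gp p) := by
  have h1 : Continuous (fun x : Gp p => (x.1 : ℂ).re) :=
    Complex.continuous_re.comp (continuous_subtype_val.comp continuous_fst)
  have h2 : Continuous (fun x : Gp p => x.2.s) := Dih.continuous_s.comp continuous_snd
  have h3 : IsOpen {x : Gp p | 0 < (x.1 : ℂ).re ∧ x.2.s = 1} := by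
    apply (isOpen_lt continuous_const h1).inter
    exact (isOpen_discrete ({1} : Set ℤˣ)).preimage h2
  refine mem_of_superset (h3.mem_nhds ⟨by simp, by simp⟩) ?_
  rintro x ⟨hx, hx'⟩
  exact ⟨hx.le, hx'⟩

lemma dense_locallyMinimal (D : Subgroup (Gp p)) (hD : Dense (D : Set (Gp p))) :
    LocallyMinimal D := by
  refine locallyMinimal_of_dense D hD (V_nhds p) (V_closed p) ?_
  intro N hNn hNc hNV hND
  by_contra hN
  -- elements of `N` have trivial circle part
  have hT : ∀ x ∈ N, x.1 = 1 := by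
    intro x hx
    apply circle_small
    intro k
    exact (hNV (N.pow_mem hx k)).1
  have hS : ∀ x ∈ N, x.2.s = 1 := fun x hx => (hNV hx).2
  obtain ⟨x, hx, hx1⟩ : ∃ x ∈ N, x ≠ 1 := by
    by_contra hcon
    push Not at hcon
    exact hN ((Subgroup.eq_bot_iff_forall N).2 hcon)
  have hxT := hT x hx
  have hxS := hS x hx
  have hxb : x.2.b ≠ 0 := by
    intro h0
    apply hx1
    apply Prod.ext hxT
    ext
    · rw [h0]; rfl
    · rw [hxS]; rfl
  -- the closed set of `c` with `(1, c * b) ∈ N` is everything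
  have hmul : ∀ c : ℤ_[p], ((1, ⟨c * x.2.b, 1⟩) : Gp p) ∈ N := by
    have hcl : IsClosed {c : ℤ_[p] | ((1, ⟨c * x.2.b, 1⟩) : Gp p) ∈ N} := by
      apply hNc.preimage (f := fun c : ℤ_[p] => ((1, ⟨c * x.2.b, 1⟩) : Gp p))
      exact continuous_const.prodMk
        (Dih.continuous_mk (continuous_id.mul continuous_const) continuous_const)
    have hsub : Set.range (Nat.cast : ℕ → ℤ_[p]) ⊆
        {c : ℤ_[p] | ((1, ⟨c * x.2.b, 1⟩) : Gp p) ∈ N} := by
      rintro _ ⟨n, rfl⟩
      have h1 : ((1, ⟨(n : ℤ_[p]) * x.2.b, 1⟩) : Gp p) = x ^ n := by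
        induction n with
        | zero =>
          simp only [Nat.cast_zero, zero_mul, pow_zero]
          rfl
        | succ n ih =>
          rw [pow_succ, ← ih]
          apply Prod.ext
          · simp [hxT]
          · ext
            · simp [add_mul]
            · simp [hxS]
      show ((1, ⟨(n : ℤ_[p]) * x.2.b, 1⟩) : Gp p) ∈ N
      rw [h1]
      exact N.pow_mem hx n
    have h2 := closure_minimal hsub hcl
    rw [PadicInt.denseRange_natCast.closure_eq] at h2
    intro c
    exact h2 trivial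
  have hmem : ∀ y : ℤ_[p], ‖y‖ ≤ ‖x.2.b‖ → ((1, ⟨y, 1⟩) : Gp p) ∈ N := by
    intro y hy
    have hxq : (x.2.b : ℚ_[p]) ≠ 0 := by
      simpa using hxb
    have h1 : ‖(y : ℚ_[p]) / (x.2.b : ℚ_[p])‖ ≤ 1 := by
      rw [norm_div]
      apply div_le_one_of_le₀ _ (norm_nonneg _)
      simpa using hy
    have h2 := hmul ⟨_, h1⟩
    convert h2
    apply Subtype.ext
    show (y : ℚ_[p]) = ((y : ℚ_[p]) / (x.2.b : ℚ_[p])) * (x.2.b : ℚ_[p])
    rw [div_mul_cancel₀ _ hxq]
  -- a reflection in `D`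
  have hcs : Continuous (fun x : Gp p => x.2.s) := Dih.continuous_s.comp continuous_snd
  have hcb : Continuous (fun x : Gp p => x.2.b) := Dih.continuous_b.comp continuous_snd
  obtain ⟨d1, hd1, hd1s⟩ : ∃ d ∈ (D : Set (Gp p)), d ∈ {y : Gp p | y.2.s = -1} := by
    apply hD.exists_mem_open
    · exact (isOpen_discrete ({-1} : Set ℤˣ)).preimage hcs
    · exact ⟨(1, ⟨0, -1⟩), rfl⟩
  obtain ⟨d2, hd2, hd2s⟩ : ∃ d ∈ (D : Set (Gp p)),
      d ∈ {y : Gp p | y.2.s = 1 ∧ y.2.b ≠ 0 ∧ ‖y.2.b - x.2.b‖ < ‖x.2.b‖} := by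
    apply hD.exists_mem_open
    · apply ((isOpen_discrete ({1} : Set ℤˣ)).preimage hcs).inter
      apply IsOpen.inter
      · exact isOpen_ne_fun hcb continuous_const
      · exact isOpen_lt (hcb.sub continuous_const).norm continuous_const
    · refine ⟨(1, ⟨x.2.b, 1⟩), rfl, hxb, ?_⟩
      show ‖x.2.b - x.2.b‖ < ‖x.2.b‖
      rw [sub_self, norm_zero]
      exact norm_pos_iff.2 hxb
  obtain ⟨hs2, hb2, hn2⟩ := hd2s
  have hcomm : d2 * d1 * d2⁻¹ * d1⁻¹ = ((1, ⟨2 * d2.2.b, 1⟩) : Gp p) := by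
    have hs1 : d1.2.s = -1 := hd1s
    apply Prod.ext
    · show d2.1 * d1.1 * d2.1⁻¹ * d1.1⁻¹ = 1
      rw [mul_comm d2.1 d1.1]
      group
    · show d2.2 * d1.2 * d2.2⁻¹ * d1.2⁻¹ = ⟨2 * d2.2.b, 1⟩
      ext
      · simp [hs1, hs2]
        ring
      · simp [hs1, hs2]
  have hD' : ((1, ⟨2 * d2.2.b, 1⟩) : Gp p) ∈ D := by
    rw [← hcomm]
    exact D.mul_mem (D.mul_mem (D.mul_mem hd2 hd1) (D.inv_mem hd2)) (D.inv_mem hd1)
  have hN' : ((1, ⟨2 * d2.2.b, 1⟩) : Gp p) ∈ N := by
    apply hmem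
    have h1 : ‖d2.2.b‖ ≤ ‖x.2.b‖ := by
      have : d2.2.b = (d2.2.b - x.2.b) + x.2.b := by ring
      rw [this]
      refine (PadicInt.nonarchimedean _ _).trans ?_
      exact max_le hn2.le le_rfl
    calc ‖2 * d2.2.b‖ = ‖(2 : ℤ_[p])‖ * ‖d2.2.b‖ := by rw [norm_mul]
      _ ≤ 1 * ‖d2.2.b‖ := by
        gcongr
        exact PadicInt.norm_le_one _
      _ ≤ ‖x.2.b‖ := by rw [one_mul]; exact h1
  have h0 : ((1, ⟨2 * d2.2.b, 1⟩) : Gp p) ∈ (N ⊓ D : Subgroup (Gp p)) := ⟨hN', hD'⟩
  rw [hND, Subgroup.mem_bot] at h0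
  have h1 : 2 * d2.2.b = 0 := congrArg (fun y : Gp p => y.2.b) h0
  rcases mul_eq_zero.1 h1 with h2 | h2
  · exact two_ne_zero h2
  · exact hb2 h2

/-- the closed subgroup `1 × ℤ_p × 1` -/
def A : Subgroup (Gp p) where
  carrier := {x | x.1 = 1 ∧ x.2.s = 1}
  one_mem' := ⟨rfl, rfl⟩
  mul_mem' := by
    rintro x y ⟨h1, h2⟩ ⟨h3, h4⟩
    refine ⟨?_, ?_⟩
    · show x.1 * y.1 = 1
      rw [h1, h3, one_mul]
    · show x.2.s * y.2.s = 1
      rw [h2, h4, one_mul]
  inv_mem' := by
    rintro x ⟨h1, h2⟩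
    refine ⟨?_, ?_⟩
    · show x.1⁻¹ = 1
      rw [h1, inv_one]
    · exact h2

lemma A_closed : IsClosed (A p : Set (Gp p)) := by
  have h2 : Continuous (fun x : Gp p => x.2.s) := Dih.continuous_s.comp continuous_snd
  exact (isClosed_eq continuous_fst continuous_const).inter (isClosed_eq h2 continuous_const)

/-- `A` is a copy of `ℤ_p` -/
def Aiso : A p ≃ₜ* Multiplicative ℤ_[p] where
  toFun x := Multiplicative.ofAdd x.1.2.b
  invFun y := ⟨(1, ⟨y.toAdd, 1⟩), rfl, rfl⟩
  left_inv := by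
    rintro ⟨⟨t, b, s⟩, h1, h2⟩
    simp only at h1 h2
    subst h1 h2
    rfl
  right_inv _ := rfl
  map_mul' := by
    rintro ⟨⟨t, b, s⟩, h1, h2⟩ ⟨⟨t', b', s'⟩, h1', h2'⟩
    simp only at h1 h2 h1' h2'
    subst h1 h2 h1' h2'
    show Multiplicative.ofAdd (b + (((1 : ℤˣ) : ℤ) : ℤ_[p]) * b') = _
    simp
  continuous_toFun := continuous_ofAdd.comp
    (Dih.continuous_b.comp (continuous_snd.comp continuous_subtype_val))
  continuous_invFun := by
    apply Continuous.subtype_mk
    exact continuous_const.prodMk (Dih.continuous_mk continuous_toAdd continuous_const)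

lemma A_not_charted (n : ℕ) : IsEmpty (ChartedSpace (EuclideanSpace ℝ (Fin n)) (A p)) := by
  constructor
  intro hch
  have h1 : LocallyConnectedSpace (A p) :=
    ChartedSpace.locallyConnectedSpace (EuclideanSpace ℝ (Fin n)) (A p)
  have h2 : TotallyDisconnectedSpace (A p) := by
    have e : A p ≃ₜ ℤ_[p] := (Aiso p).toHomeomorph
    exact e.symm.totallyDisconnectedSpace
  have h3 : DiscreteTopology (A p) := by
    rw [discreteTopology_iff_isOpen_singleton]
    intro x
    have := isOpen_connectedComponent (x := x)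
    rwa [connectedComponent_eq_singleton] at this
  have h4 : CompactSpace (A p) := isCompact_iff_compactSpace.1 (A_closed p).isCompact
  have h5 : Finite (A p) := finite_of_compact_of_discrete
  have h6 : Infinite (A p) := Infinite.of_injective (fun n : ℕ => (Aiso p).symm
    (Multiplicative.ofAdd (n : ℤ_[p]))) (by
      intro a b hab
      simpa using hab)
  exact not_finite (A p)

end

/-- For every prime `p` there is a compact (in particular locally compact) Hausdorff group `G`
which is densely locally minimal (all its dense subgroups are locally minimal) and not totally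
disconnected, and which has a closed abelian subgroup `A` topologically isomorphic to `ℤ_p`; this
`A` is not a Lie group (it is not even locally Euclidean). No hypothesis is needed. -/
theorem result (p : ℕ) [Fact p.Prime] :
    ∃ (G : Type) (_ : Group G) (_ : TopologicalSpace G),
      IsTopologicalGroup G ∧ T2Space G ∧ CompactSpace G ∧
      (∀ D : Subgroup G, Dense (D : Set G) → LocallyMinimal D) ∧
      ¬ TotallyDisconnectedSpace G ∧
      ∃ A : Subgroup G, IsClosed (A : Set G) ∧ (∀ x ∈ A, ∀ y ∈ A, x * y = y * x) ∧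
        Nonempty (A ≃ₜ* Multiplicative ℤ_[p]) ∧
        ∀ n : ℕ, IsEmpty (ChartedSpace (EuclideanSpace ℝ (Fin n)) A) := by
  refine ⟨Gp p, inferInstance, inferInstance, inferInstance, inferInstance, inferInstance,
    dense_locallyMinimal p, ?_, A p, A_closed p, ?_, ⟨Aiso p⟩, A_not_charted p⟩
  · intro h
    have h1 : IsPreconnected (Set.range (fun t : Circle => ((t, 1) : Gp p))) :=
      isPreconnected_range (by fun_prop)
    have h2 := h1.subsingleton
    have h3 : (((-1 : Circle), 1) : Gp p) = ((1 : Circle), 1) := h2 ⟨-1, rfl⟩ ⟨1, rfl⟩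
    have h4 : (-1 : Circle) = 1 := congrArg Prod.fst h3
    have h5 := congrArg (fun z : Circle => (z : ℂ).re) h4
    simp at h5
    norm_num at h5
  · rintro x hx y hy
    have h := (Aiso p).injective (a₁ := ⟨x, hx⟩ * ⟨y, hy⟩) (a₂ := ⟨y, hy⟩ * ⟨x, hx⟩) (by
      rw [map_mul, map_mul, mul_comm])
    exact congrArg Subtype.val h

end

end Pool.Agent.Results.MP_6af4f0_al.NotLie
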